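import Mathlib

set_option autoImplicit false

namespace Pool.Agent.Results.MP_fbe9f6_co.Proof

/-- `H` has an `F`-free colouring with `k` colours: no colour class contains an induced copy
of `F`. -/
def FreeColorable {α β : Type} (F : SimpleGraph α) (H : SimpleGraph β) (k : ℕ) : Prop :=
  ∃ c : β → Fin k, ∀ i : Fin k, IsEmpty (F ↪g H.induce {v | c v = i})

/-- The `F`-free chromatic number `χ(H : -F)`. -/
noncomputable def freeChrom {α β : Type} (F : SimpleGraph α) (H : SimpleGraph β) : ℕ :=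
  sInf {k | FreeColorable F H k}

def Mono {m : ℕ} {V C : Type} (G : SimpleGraph (Fin m)) (H : SimpleGraph V) (φ : V → C) : Prop :=
  ∃ c, ∃ g : Fin m → V, Function.Injective g ∧ (∀ x, φ (g x) = c) ∧
    ∀ x y, H.Adj (g x) (g y) ↔ G.Adj x y

lemma free_iff {m k : ℕ} {V : Type} (G : SimpleGraph (Fin m)) (H : SimpleGraph V) :
    FreeColorable G H k ↔ ∃ φ : V → Fin k, ¬ Mono G H φ := by
  refine exists_congr fun φ => ⟨fun h => ?_, fun h i => ⟨fun e => h ?_⟩⟩
  · rintro ⟨c, g, h1, h2, h3⟩
    exact (h c).false ⟨⟨fun x => ⟨g x, h2 x⟩, fun x y hxy => h1 (congrArg Subtype.val hxy)⟩,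
      fun {x y} => h3 x y⟩
  · exact ⟨i, fun x => (e x).1, fun x y hxy => e.injective (Subtype.ext hxy), fun x => (e x).2,
      fun x y => e.map_rel_iff⟩

lemma chrom_eq {m l : ℕ} {V : Type} (G : SimpleGraph (Fin m)) (H : SimpleGraph V) (hm : 1 ≤ m)
    (h1 : ∃ φ : V → Fin (l + 1), ¬ Mono G H φ) (h2 : ∀ φ : V → Fin l, Mono G H φ) :
    freeChrom G H = l + 1 := by
  apply IsLeast.csInf_eq
  refine ⟨(free_iff G H).2 h1, fun k hk => ?_⟩
  by_contra hlt
  obtain ⟨φ, hφ⟩ := (free_iff G H).1 hk
  obtain ⟨c, g, a1, a2, a3⟩ := h2 (fun v => (φ v).castLE (by omega))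
  refine hφ ⟨φ (g ⟨0, hm⟩), g, a1, fun x => ?_, a3⟩
  exact Fin.castLE_injective _ ((a2 x).trans (a2 _).symm)

def ext {V : Type} (H : SimpleGraph V) (R : ℕ) : SimpleGraph (V ⊕ ((V → Bool) × Fin R)) where
  Adj
    | Sum.inl u, Sum.inl v => H.Adj u v
    | Sum.inl u, Sum.inr p => p.1 u = true
    | Sum.inr p, Sum.inl u => p.1 u = true
    | Sum.inr _, Sum.inr _ => False
  symm := ⟨by rintro (u | u) (v | v) h <;> first | exact h | exact H.symm.1 _ _ h⟩
  loopless := ⟨by rintro (u | u) h <;> first | exact h | exact H.loopless.1 _ h⟩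

lemma build {m : ℕ} (G : SimpleGraph (Fin m)) (hG : G.Colorable 2) (k j : ℕ) :
    ∃ (V : Type) (_ : Fintype V) (H : SimpleGraph V), H.Colorable j ∧ ∀ φ : V → Fin k,
      Mono G H φ ∨ ∃ D : Finset (Fin k), D.card = j ∧ ∀ c ∈ D, ∃ f : Fin m → V,
        Function.Injective f ∧ (∀ x, φ (f x) = c) ∧ ∀ x y, ¬ H.Adj (f x) (f y) := by
  classical
  obtain ⟨col⟩ := hG
  induction j with
  | zero => exact ⟨Empty, inferInstance, ⊥, SimpleGraph.Colorable.of_isEmpty 0,
      fun φ => Or.inr ⟨∅, rfl, by simp⟩⟩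
  | succ j ih =>
    obtain ⟨V, _, H, ⟨C⟩, hH⟩ := ih
    refine ⟨V ⊕ ((V → Bool) × Fin (k * m + 1)), inferInstance, ext H _, ⟨SimpleGraph.Coloring.mk
      (Sum.elim (fun v => (C v).castSucc) (fun _ => Fin.last j)) ?_⟩, fun φ => ?_⟩
    · rintro (u | u) (v | v) h
      · exact fun e => C.valid h (Fin.castSucc_injective _ e)
      · exact (Fin.castSucc_lt_last _).ne
      · exact (Fin.castSucc_lt_last _).ne'
      · exact h.elim
    rcases hH (fun v => φ (Sum.inl v)) with ⟨c, g, h1, h2, h3⟩ | ⟨D, hD, hf⟩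
    · exact Or.inl ⟨c, fun x => Sum.inl (g x), Sum.inl_injective.comp h1, h2, h3⟩
    choose f f1 f2 f3 using hf
    by_cases hs : ∃ c, ∃ hc : c ∈ D, ∀ P : Fin m → Bool, ∃ p, φ (Sum.inr p) = c ∧
      ∀ x, p.1 (f c hc x) = P x
    · left
      obtain ⟨c, hc, hp⟩ := hs
      choose p p1 p2 using hp
      let q : Fin m → (V → Bool) × Fin (k * m + 1) := fun y => p (fun x => decide (G.Adj x y ∨ x = y))
      have q2 : ∀ x y, (q y).1 (f c hc x) = true ↔ (G.Adj x y ∨ x = y) := fun x y => by
        simp only [q, p2, decide_eq_true_eq]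
      have two : ∀ x y, col x ≠ 0 → col y ≠ 0 → ¬ G.Adj x y := fun x y hx hy h =>
        col.valid h (by omega)
      refine ⟨c, fun x => if col x = 0 then Sum.inl (f c hc x) else Sum.inr (q x), ?_, ?_, ?_⟩
      · intro x y h
        by_cases hx : col x = 0 <;> by_cases hy : col y = 0 <;> simp only [hx, hy, if_true, if_false,
          Sum.inl.injEq, Sum.inr.injEq, reduceCtorEq] at h
        · exact f1 c hc h
        · have := (q2 x x).2 (Or.inr rfl)
          rw [h, q2] at this
          exact this.resolve_left (two x y hx hy)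
      · intro x
        by_cases hx : col x = 0 <;> simp only [hx, if_true, if_false]
        · exact f2 c hc x
        · exact p1 _
      · intro x y
        by_cases hx : col x = 0 <;> by_cases hy : col y = 0 <;> simp only [hx, hy, if_true, if_false]
        · exact iff_of_false (f3 c hc x y) (fun h => col.valid h (hx.trans hy.symm))
        · exact (q2 x y).trans (or_iff_left (by rintro rfl; exact hy hx))
        · exact ((q2 y x).trans (or_iff_left (by rintro rfl; exact hx hy))).trans (G.adj_comm _ _)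
        · exact iff_of_false id (two x y hx hy)
    · right
      push Not at hs
      choose P hP using hs
      let S : V → Bool := fun u => decide (∃ c, ∃ hc : c ∈ D, ∃ x, f c hc x = u ∧ P c hc x = true)
      have hS : ∀ c (hc : c ∈ D), ∀ x, S (f c hc x) = P c hc x := by
        intro c hc x
        rw [Bool.eq_iff_iff]
        simp only [S, decide_eq_true_eq]
        constructor
        · rintro ⟨c', hc', x', e, h⟩
          have : c' = c := by rw [← f2 c' hc' x', e, f2 c hc]
          subst this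
          rwa [← f1 c' hc e]
        · exact fun h => ⟨c, hc, x, rfl, h⟩
      have hnot : ∀ t, φ (Sum.inr (S, t)) ∉ D := fun t ht => by
        obtain ⟨x, hx⟩ := hP _ ht (S, t) rfl
        exact hx (hS _ ht x)
      obtain ⟨c, hc⟩ := Fintype.exists_lt_card_fiber_of_mul_lt_card
        (fun t : Fin (k * m + 1) => φ (Sum.inr (S, t))) (n := m) (by simp)
      obtain ⟨T, hT, hTm⟩ := Finset.exists_subset_card_eq hc.le
      let e := T.orderEmbOfFin hTm
      have he : ∀ x, φ (Sum.inr (S, e x)) = c := fun x => by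
        simpa using hT (Finset.orderEmbOfFin_mem T hTm x)
      have hcD : c ∉ D := by
        obtain ⟨t, ht⟩ := Finset.card_pos.1 (lt_of_le_of_lt (Nat.zero_le _) hc)
        have : φ (Sum.inr (S, t)) = c := by simpa using ht
        exact this ▸ hnot t
      refine ⟨insert c D, by rw [Finset.card_insert_of_notMem hcD, hD], fun c' hc' => ?_⟩
      rcases Finset.mem_insert.1 hc' with rfl | hc'
      · exact ⟨fun x => Sum.inr (S, e x), fun x y h => e.injective (by simpa using h), he,
          fun x y => id⟩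
      · exact ⟨fun x => Sum.inl (f c' hc' x), Sum.inl_injective.comp (f1 c' hc'), f2 c' hc', f3 c' hc'⟩

def cliques (N l : ℕ) : SimpleGraph (Fin N × Fin l) where
  Adj p q := p.1 = q.1 ∧ p.2 ≠ q.2
  symm := ⟨fun _ _ h => ⟨h.1.symm, h.2.symm⟩⟩
  loopless := ⟨fun _ h => h.2 rfl⟩

theorem result (m : ℕ) (hm : 2 ≤ m) (G : SimpleGraph (Fin m)) (hG : G.IsBipartite)
    (l : ℕ) (hl : 2 ≤ l) : ∃ (V : Type) (_ : Finite V) (H : SimpleGraph V),
      H.chromaticNumber = l ∧ freeChrom G H = l := by
  classical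
  obtain ⟨l, rfl⟩ : ∃ k, l = k + 1 := ⟨l - 1, by omega⟩
  by_cases he : ∃ x y, G.Adj x y
  · obtain ⟨x, y, hxy⟩ := he
    obtain ⟨V, _, H, hc, hH⟩ := build G hG l (l + 1)
    have h2 : ∀ φ : V → Fin l, Mono G H φ := fun φ => (hH φ).resolve_right (by
      rintro ⟨D, hD, -⟩
      have := D.card_le_univ
      simp at this; omega)
    have h3 : ∀ k (C : H.Coloring (Fin k)), ¬ Mono G H C := by
      rintro k C ⟨c, g, -, a2, a3⟩
      exact C.valid ((a3 x y).2 hxy) ((a2 x).trans (a2 y).symm)
    refine ⟨V, inferInstance, H, ?_, chrom_eq G H (by omega) ⟨_, h3 _ hc.some⟩ h2⟩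
    push_cast
    exact SimpleGraph.chromaticNumber_eq_iff_colorable_not_colorable.2
      ⟨hc, fun ⟨C⟩ => h3 _ C (h2 C)⟩
  · push Not at he
    obtain ⟨m, rfl⟩ : ∃ k, m = k + 1 := ⟨m - 1, by omega⟩
    have hm0 : 0 < m := by omega
    refine ⟨Fin (l * m + 1) × Fin (l + 1), inferInstance, cliques _ _, ?_,
      chrom_eq G _ (by omega) ⟨fun p => ⟨p.1 / m, ?_⟩, ?_⟩ (fun φ => ?_)⟩
    · push_cast
      refine SimpleGraph.chromaticNumber_eq_iff_colorable_not_colorable.2
        ⟨⟨SimpleGraph.Coloring.mk Prod.snd (fun h => h.2)⟩, fun ⟨C⟩ => ?_⟩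
      have : Function.Injective (fun i : Fin (l + 1) => C (0, i)) := fun i j h => by
        by_contra hne
        exact C.valid (v := (0, i)) (w := (0, j)) ⟨rfl, hne⟩ h
      have := Fintype.card_le_of_injective _ this
      simp at this
    · have := p.1.2
      exact Nat.lt_succ_of_le (Nat.div_le_of_le_mul (by rw [mul_comm m l]; omega))
    · rintro ⟨c, g, a1, a2, a3⟩
      have : Function.Injective (fun x => (⟨(g x).1 % m, Nat.mod_lt _ hm0⟩ : Fin m)) := by
        intro x y h
        have b1 : (g x).1.val % m = (g y).1.val % m := congrArg Fin.val h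
        have b2 : (g x).1.val / m = (g y).1.val / m := congrArg Fin.val ((a2 x).trans (a2 y).symm)
        have b3 : (g x).1 = (g y).1 := Fin.ext (by
          rw [← Nat.div_add_mod (g x).1.val m, b1, b2, Nat.div_add_mod])
        by_contra hne
        exact he x y ((a3 x y).1 ⟨b3, fun b4 => hne (a1 (Prod.ext b3 b4))⟩)
      have := Fintype.card_le_of_injective _ this
      simp at this
    · obtain ⟨c, hc⟩ := Fintype.exists_lt_card_fiber_of_mul_lt_card
        (fun t : Fin (l * m + 1) => φ (t, 0)) (n := m) (by simp)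
      obtain ⟨T, hT, hTm⟩ := Finset.exists_subset_card_eq (Nat.succ_le_of_lt hc)
      let e := T.orderEmbOfFin hTm
      refine ⟨c, fun x => (e x, 0), fun x y h => e.injective (by simpa using h), fun x => ?_,
        fun x y => iff_of_false (fun h => h.2 rfl) (he x y)⟩
      simpa using hT (Finset.orderEmbOfFin_mem T hTm x)

end Pool.Agent.Results.MP_fbe9f6_co.Proof
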